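import Pool.Agent.MHP.StmtsC

/-! Row CMV of squad MHP: quantification over vertices. -/

set_option autoImplicit false

open scoped Classical

namespace Pool.Agent.MHP.H59

open Pool.Agent.HMT

/-- a vertex in front of the values -/
def inV {a b c : ℕ} {V : Type} (v : Val a b c V) (o : Option V) : Val (a + 1) b c V :=
  ⟨Fin.cons o v.x, v.X, v.F⟩

theorem vl_consV (K A : PG) {a b c : ℕ} (x : Fin a → VG K A) (X : Fin b → Set (VG K A))
    (F : Fin c → Set (Sym2 (VG K A))) (z : VG K A) :
    vl K A (Fin.cons z x : Fin (a + 1) → VG K A) X F = inV (vl K A x X F) (pl K A z) := by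
  unfold vl inV
  congr 1
  funext k
  refine Fin.cases ?_ (fun j => ?_) k
  · rfl
  · rfl

theorem vr_consV (K A : PG) {a b c : ℕ} (x : Fin a → VG K A) (X : Fin b → Set (VG K A))
    (F : Fin c → Set (Sym2 (VG K A))) (z : VG K A) :
    vr K A (Fin.cons z x : Fin (a + 1) → VG K A) X F = inV (vr K A x X F) (pr K A z) := by
  unfold vr inV
  congr 1
  funext k
  refine Fin.cases ?_ (fun j => ?_) k
  · rfl
  · rfl

/-- the kind of a position -/
noncomputable def kind (A : PG) : Option A.V → Fin 3
  | none => 2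
  | some w => if w = A.r then 0 else 1

theorem kind_none (A : PG) : kind A none = 2 := rfl

theorem kind_root (A : PG) : kind A (some A.r) = 0 := by
  unfold kind
  simp

theorem kind_some (A : PG) {w : A.V} (h : w ≠ A.r) : kind A (some w) = 1 := by
  unfold kind
  simp [h]

theorem kind_zero (A : PG) {o : Option A.V} (h : kind A o = 0) : o = some A.r := by
  rcases o with _ | w
  · rw [kind_none] at h
    exact absurd h (by decide)
  · by_cases hw : w = A.r
    · rw [hw]
    · rw [kind_some A hw] at h
      exact absurd h (by decide)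

theorem kind_one (A : PG) {o : Option A.V} (h : kind A o = 1) : ∃ w, w ≠ A.r ∧ o = some w := by
  rcases o with _ | w
  · rw [kind_none] at h
    exact absurd h (by decide)
  · by_cases hw : w = A.r
    · rw [hw, kind_root] at h
      exact absurd h (by decide)
    · exact ⟨w, hw, rfl⟩

theorem kind_two (A : PG) {o : Option A.V} (h : kind A o = 2) : o = none := by
  rcases o with _ | w
  · rfl
  · by_cases hw : w = A.r
    · rw [hw, kind_root] at h
      exact absurd h (by decide)
    · rw [kind_some A hw] at h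
      exact absurd h (by decide)

theorem cmv : CmvStmt := by
  rintro a b c φ ⟨Q, hQ, τ, R, h⟩
  haveI := hQ
  refine ⟨Set (Fin 3 × Q), inferInstance,
    fun A v => {pq | ∃ o : Option A.V, pq = (kind A o, τ A (inV v o))},
    fun s t => ∃ (k l : Fin 3) (q q' : Q), (k, q) ∈ s ∧ (l, q') ∈ t ∧
      ((k = 0 ∧ l = 0) ∨ (k = 1 ∧ l = 2) ∨ (k = 2 ∧ l = 1)) ∧ R q q', ?_⟩
  intro K A x X F hF
  constructor
  · rintro ⟨z, hz⟩
    have h1 := (h K A (Fin.cons z x) X F hF).1 hz
    rw [vl_consV, vr_consV] at h1
    refine ⟨kind K (pl K A z), kind A (pr K A z), _, _, ⟨_, rfl⟩, ⟨_, rfl⟩, ?_, h1⟩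
    rcases z with v | w
    · by_cases hv : v = K.r
      · left
        subst hv
        have e1 : pl K A (Sum.inl K.r) = some K.r := rfl
        have e2 : pr K A (Sum.inl K.r) = some A.r := by
          unfold pr
          simp
        rw [e1, e2, kind_root, kind_root]
        exact ⟨rfl, rfl⟩
      · right; left
        have e1 : pl K A (Sum.inl v) = some v := rfl
        have e2 : pr K A (Sum.inl v) = none := by
          unfold pr
          simp [hv]
        rw [e1, e2, kind_some K hv, kind_none]
        exact ⟨rfl, rfl⟩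
    · right; right
      have e1 : pl K A (Sum.inr w) = none := rfl
      have e2 : pr K A (Sum.inr w) = some w.1 := rfl
      rw [e1, e2, kind_none, kind_some A w.2]
      exact ⟨rfl, rfl⟩
  · rintro ⟨k, l, q, q', ⟨o, e₁⟩, ⟨o', e₂⟩, hk, hR⟩
    obtain ⟨rfl, rfl⟩ := Prod.mk.inj e₁
    obtain ⟨rfl, rfl⟩ := Prod.mk.inj e₂
    have key : ∃ z : VG K A, pl K A z = o ∧ pr K A z = o' := by
      rcases hk with ⟨h1, h2⟩ | ⟨h1, h2⟩ | ⟨h1, h2⟩
      · refine ⟨Sum.inl K.r, ?_, ?_⟩
        · rw [kind_zero K h1]; rfl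
        · rw [kind_zero A h2]
          unfold pr
          simp
      · obtain ⟨w, hw, e⟩ := kind_one K h1
        refine ⟨Sum.inl w, ?_, ?_⟩
        · rw [e]; rfl
        · rw [kind_two A h2]
          unfold pr
          simp [hw]
      · obtain ⟨w, hw, e⟩ := kind_one A h2
        refine ⟨Sum.inr ⟨w, hw⟩, ?_, ?_⟩
        · rw [kind_two K h1]; rfl
        · rw [e]; rfl
    obtain ⟨z, hz1, hz2⟩ := key
    refine ⟨z, (h K A (Fin.cons z x) X F hF).2 ?_⟩
    rw [vl_consV, vr_consV, hz1, hz2]
    exact hR

end Pool.Agent.MHP.H59
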